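import Pool.Agent.Helper61.QS.GoalsG

/-!
# Project QS (MP_0ebdb3_gt), packet STD
-/

set_option autoImplicit false

namespace Pool.Agent.Helper25.QS

open Pool.Agent.Helper61.QS
open Set ComplexConjugate

theorem kap_zero (P u : W) : kap 0 P u = u.2 := by
  unfold kap
  refine Prod.ext ?_ rfl
  simp

theorem contDiff_fφ {φ : ℝ → ℝ} (hφ : ContDiff ℝ 3 φ) : ContDiff ℝ 3 (fφ φ) := by
  unfold fφ
  exact hφ.comp Real.contDiff_cos

theorem deriv_fφ {φ : ℝ → ℝ} (hφ : ContDiff ℝ 3 φ) (θ : ℝ) :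
    deriv (fφ φ) θ = -(Real.sin θ * deriv φ (Real.cos θ)) := by
  have h1 : HasDerivAt φ (deriv φ (Real.cos θ)) (Real.cos θ) :=
    (hφ.differentiable (by norm_num) _).hasDerivAt
  have h2 := h1.comp θ (Real.hasDerivAt_cos θ)
  have h3 : deriv (fφ φ) θ = deriv φ (Real.cos θ) * -Real.sin θ := h2.deriv
  rw [h3]
  ring

theorem contDiff_AK {K : ℂ × ℝ → (ℂ × ℝ) →L[ℝ] (ℂ × ℝ) →L[ℝ] ℝ} (hK : ContDiff ℝ 3 K) :
    ContDiff ℝ 1 (AK K) := by
  have hs : ContDiff ℝ 3 (fun θ : ℝ => ((Real.sin θ : ℂ), Real.cos θ)) :=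
    (Complex.ofRealCLM.contDiff.comp Real.contDiff_sin).prodMk Real.contDiff_cos
  have hc : ContDiff ℝ 3 (fun θ : ℝ => ((Real.cos θ : ℂ), -Real.sin θ)) :=
    (Complex.ofRealCLM.contDiff.comp Real.contDiff_cos).prodMk Real.contDiff_sin.neg
  have h1 : ContDiff ℝ 3 (fun θ : ℝ => K ((Real.sin θ : ℂ), Real.cos θ)) := hK.comp hs
  have h2 := (h1.clm_apply hc).clm_apply hc
  exact h2.of_le (by norm_num)

theorem goalSTD (hSP : G_SP) (hSR1 : G_SR1) (hSR2 : G_SR2) : G_STD := by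
  intro m gM hB hst hpos x hx
  obtain ⟨φ, H, K, hφ, hφp, hH, hK, hg, hcase⟩ := hst
  rcases hcase with ⟨hm, hφ1⟩ | ⟨hrot, hort⟩
  · subst hm
    refine hSP gM H K hB hH hK ?_ x hx
    intro P hP u hu u' hu'
    rw [hg P hP u hu u' hu', kap_zero, kap_zero, hφ1]
    ring
  · obtain ⟨hA, hcurv⟩ := hSR1 m gM φ H K hB hφ hφp hH hK hg hrot hort
    have hf : ContDiff ℝ 3 (fφ φ) := contDiff_fφ hφ
    have hineq : ∀ t ∈ Ioo (0 : ℝ) Real.pi, deriv (deriv (fφ φ)) t ≤
        deriv (AK K) t / (2 * AK K t) * deriv (fφ φ) t := by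
      intro t ht
      have hreg : ((Real.pi / 4, t, 0, 0) : R4) ∈ Reg := by
        refine ⟨?_, ?_, ?_⟩
        · change Real.sin (Real.pi / 4) ≠ 0
          rw [Real.sin_pi_div_four]
          positivity
        · change Real.cos (Real.pi / 4) ≠ 0
          rw [Real.cos_pi_div_four]
          positivity
        · change Real.sin t ≠ 0
          exact (Real.sin_pos_of_pos_of_lt_pi ht.1 ht.2).ne'
      obtain ⟨Hrr, hHrr, hc⟩ := hcurv _ hreg
      have h0 := hpos _ hreg _ hc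
      change 0 ≤ Hrr * fφ φ t * (deriv (AK K) t / (2 * AK K t) * deriv (fφ φ) t -
        deriv (deriv (fφ φ)) t) at h0
      have hfp : 0 < fφ φ t := hφp _
      have h1 : 0 < Hrr * fφ φ t := mul_pos hHrr hfp
      have h2 := nonneg_of_mul_nonneg_right h0 h1
      linarith
    have hz : ∀ t ∈ Icc (0 : ℝ) Real.pi, deriv (fφ φ) t = 0 :=
      hSR2 (fφ φ) (AK K) (hf.of_le (by norm_num)) (contDiff_AK hK) (fun t _ => hA t)
        (by rw [deriv_fφ hφ, Real.sin_zero]; ring) (by rw [deriv_fφ hφ, Real.sin_pi]; ring) hineq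
    have hall : ∀ t : ℝ, deriv (fφ φ) t = 0 := by
      intro t
      have h1 := hz (Real.arccos (Real.cos t)) ⟨Real.arccos_nonneg _, Real.arccos_le_pi _⟩
      rw [deriv_fφ hφ, Real.cos_arccos (Real.neg_one_le_cos t) (Real.cos_le_one t),
        Real.sin_arccos] at h1
      rw [deriv_fφ hφ]
      rcases mul_eq_zero.mp (neg_eq_zero.mp h1) with h2 | h2
      · have h3 : 1 - Real.cos t ^ 2 = 0 :=
          (Real.sqrt_eq_zero (by nlinarith [Real.sin_sq_add_cos_sq t, sq_nonneg (Real.sin t)])).mp h2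
        have h4 : Real.sin t = 0 := by
          have := Real.sin_sq_add_cos_sq t
          have h5 : Real.sin t ^ 2 = 0 := by linarith
          exact pow_eq_zero_iff (two_ne_zero) |>.mp h5
        rw [h4]
        ring
      · rw [h2]
        ring
    have hdd : ∀ t : ℝ, deriv (deriv (fφ φ)) t = 0 := by
      intro t
      have : deriv (fφ φ) = fun _ => 0 := funext hall
      rw [this]
      simp
    obtain ⟨Hrr, _, hc⟩ := hcurv x hx
    rw [hall, hdd] at hc
    simpa using hc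

end Pool.Agent.Helper25.QS
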